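import Pool.Agent.TH990.FA.Defs
import Pool.Agent.H12R2.Sep.WinHalf
import Pool.Agent.H12R2.Sep.Win2
import Pool.Agent.H12R2.Sep.Win1

/-!
One arm in an annulus has a polynomially small probability.
-/

set_option autoImplicit false

namespace Pool.Agent.TH367.FA

open H974 H12S Pool.Agent.TH990.FA

/-- An arm in the annulus gives a crossing in the sense of `Crs`. -/
theorem one_crs {c : Vtx} {d k : ℕ} {F : Set Edg} (h : F1 c d k F) :
    Crs c.1 c.2 (d + 1) k F := by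
  obtain ⟨u, ⟨-, v, hv, hN⟩, w, hw, hr⟩ := h
  refine ⟨u, w, ?_, ?_, ?_⟩
  · unfold rad at hv
    have h1 : |v.1 - c.1| ≤ d := (le_max_left _ _).trans hv
    have h2 : |v.2 - c.2| ≤ d := (le_max_right _ _).trans hv
    rw [abs_le] at h1 h2
    unfold Nb at hN
    unfold inR
    push_cast
    omega
  · have hw' : max |w.1 - c.1| |w.2 - c.2| = (k : ℤ) := hw
    rcases max_choice |w.1 - c.1| |w.2 - c.2| with h | h
    · rw [h] at hw'
      rcases abs_choice (w.1 - c.1) with h3 | h3 <;> rw [h3] at hw' <;> omega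
    · rw [h] at hw'
      rcases abs_choice (w.2 - c.2) with h3 | h3 <;> rw [h3] at hw' <;> omega
  · have hr' : Reach (F ∩ EV (An c d k)) u w := hr
    exact hr'.mono Set.inter_subset_left

theorem one : ∃ C c0 : ℝ, 0 < C ∧ 0 < c0 ∧ ∀ (c : Vtx) (d k : ℕ), 1 ≤ d → d ≤ k →
    ∀ S : Finset Edg, (∀ e ∈ EV (An c d k), e ∈ S) →
      Pr (fun _ => (1/2:ℝ)) S (fun F => F1 c d k ↑F) ≤ C * ((d:ℝ) / k) ^ c0 := by
  obtain ⟨κ, hκ, hwin⟩ := H12S.win_half
  obtain ⟨C, c0, hC, hc, harm⟩ := H12S.win_arm_of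
    (by intro q κ n h m hm hmn c1 c2 S; exact H12S.win_blk h hm hmn c1 c2 S) κ hκ
  refine ⟨C * 2 ^ c0 + 1, c0, by positivity, hc, ?_⟩
  intro c d k hd hdk S _
  have hok : Ok (fun _ : Edg => (1/2:ℝ)) := okq (by norm_num) (by norm_num)
  have hd' : (0:ℝ) < d := by exact_mod_cast hd
  have hk' : (0:ℝ) < k := by exact_mod_cast (lt_of_lt_of_le hd hdk)
  rcases Nat.eq_or_lt_of_le hdk with h | h
  · have h1 : ((d:ℝ) / k) ^ c0 = 1 := by
      rw [h, div_self hk'.ne', Real.one_rpow]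
    rw [h1, mul_one]
    refine (Pr_le_one hok _ _).trans ?_
    have : 0 ≤ C * (2:ℝ) ^ c0 := by positivity
    linarith
  · have h1 := (harm (1/2) k (hwin k) (d + 1) k (by omega) h le_rfl c.1 c.2 S).1
    have h2 : Pr (fun _ => (1/2:ℝ)) S (fun F => F1 c d k ↑F) ≤
        Pr (fun _ => (1/2:ℝ)) S (fun F => Crs c.1 c.2 (d + 1) k ↑F) :=
      Pr_mono hok fun F _ hF => one_crs hF
    have h3 : (((d + 1 : ℕ) : ℝ) / k) ^ c0 ≤ 2 ^ c0 * ((d:ℝ) / k) ^ c0 := by
      rw [← Real.mul_rpow (by norm_num) (by positivity)]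
      apply Real.rpow_le_rpow (by positivity) _ hc.le
      rw [← mul_div_assoc]
      apply div_le_div_of_nonneg_right _ hk'.le
      push_cast
      have : (1:ℝ) ≤ d := by exact_mod_cast hd
      linarith
    have h4 : 0 ≤ ((d:ℝ) / k) ^ c0 := by positivity
    calc Pr (fun _ => (1/2:ℝ)) S (fun F => F1 c d k ↑F)
        ≤ C * (((d + 1 : ℕ) : ℝ) / k) ^ c0 := h2.trans h1
      _ ≤ C * (2 ^ c0 * ((d:ℝ) / k) ^ c0) := mul_le_mul_of_nonneg_left h3 hC.le
      _ ≤ (C * 2 ^ c0 + 1) * ((d:ℝ) / k) ^ c0 := by nlinarith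

end Pool.Agent.TH367.FA
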